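import Pool.Agent.Lib.LD.Def

/-!
# H33DC, file D: a 2-connected graph with three or four vertices is Hamiltonian (MP_33911d, cycles of length at least 5)

The conclusion is `OneCyc E Y` of `H47G5.Def`, written out.
-/

set_option autoImplicit false

namespace H33DC

open Finset H98M H85TF LD

variable {V : Type*} [DecidableEq V]

theorem pair_edge {E : Finset (Sym2 V)} {b c : V} (hbc : b ≠ c) (h : ¬ Disc {b, c} E) : s(b, c) ∈ E := by
  by_contra hcon
  apply h
  refine ⟨{b}, {c}, singleton_nonempty _, singleton_nonempty _, by simpa using hbc, rfl, ?_⟩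
  intro x hx y hy
  rw [mem_singleton] at hx hy
  subst hx hy
  exact hcon

theorem star_edge {E : Finset (Sym2 V)} {b c d : V} (hbc : b ≠ c) (hbd : b ≠ d) (h : ¬ Disc {b, c, d} E) :
    s(b, c) ∈ E ∨ s(b, d) ∈ E := by
  by_contra hcon
  push Not at hcon
  apply h
  refine ⟨{b}, {c, d}, singleton_nonempty _, insert_nonempty _ _, ?_, rfl, ?_⟩
  · simp only [disjoint_singleton_left, mem_insert, mem_singleton, not_or]
    exact ⟨hbc, hbd⟩
  · intro x hx y hy
    rw [mem_singleton] at hx
    subst hx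
    rw [mem_insert, mem_singleton] at hy
    rcases hy with rfl | rfl
    · exact hcon.1
    · exact hcon.2

theorem triple_edges {E : Finset (Sym2 V)} {b c d : V} (hbc : b ≠ c) (hbd : b ≠ d) (hcd : c ≠ d)
    (h : ¬ Disc {b, c, d} E) : (s(b, c) ∈ E ∨ s(b, d) ∈ E) ∧ (s(b, c) ∈ E ∨ s(c, d) ∈ E) ∧
      (s(b, d) ∈ E ∨ s(c, d) ∈ E) := by
  refine ⟨star_edge hbc hbd h, ?_, ?_⟩
  · have h1 : ({b, c, d} : Finset V) = {c, b, d} := by
      ext x
      simp only [mem_insert, mem_singleton]
      tauto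
    rw [h1] at h
    have := star_edge hbc.symm hcd h
    rwa [Sym2.eq_swap (a := c) (b := b)] at this
  · have h1 : ({b, c, d} : Finset V) = {d, b, c} := by
      ext x
      simp only [mem_insert, mem_singleton]
      tauto
    rw [h1] at h
    have := star_edge hbd.symm hcd.symm h
    rwa [Sym2.eq_swap (a := d) (b := b), Sym2.eq_swap (a := d) (b := c)] at this

theorem dg_empty (v : V) : dg (∅ : Finset (Sym2 V)) v = 0 := by
  simp [dg]

theorem three_cyc {E : Finset (Sym2 V)} {a b c : V} (hab : a ≠ b) (hac : a ≠ c) (hbc : b ≠ c)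
    (h1 : s(a, b) ∈ E) (h2 : s(b, c) ∈ E) (h3 : s(c, a) ∈ E) :
    ∃ F ⊆ E, ((∀ v, dg F v = 0 ∨ dg F v = 2) ∧ ∀ T : Finset V, (∀ a ∈ T, ∀ b, s(a, b) ∈ F → b ∈ T) → ∀ x ∈ T,
      dg F x ≠ 0 → ∀ y, dg F y ≠ 0 → y ∈ T) ∧ ∀ v ∈ ({a, b, c} : Finset V), dg F v = 2 := by
  have n1 : s(c, a) ∉ (∅ : Finset (Sym2 V)) := notMem_empty _
  have n2 : s(b, c) ∉ insert s(c, a) (∅ : Finset (Sym2 V)) := by
    simp only [mem_insert, notMem_empty, or_false, Sym2.eq_iff, not_or, not_and]
    exact ⟨fun h => absurd h hbc, fun h => absurd h hab.symm⟩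
  have n3 : s(a, b) ∉ insert s(b, c) (insert s(c, a) (∅ : Finset (Sym2 V))) := by
    simp only [mem_insert, notMem_empty, or_false, Sym2.eq_iff, not_or, not_and]
    exact ⟨⟨fun h => absurd h hab, fun h => absurd h hac⟩,
      fun h => absurd h hac, fun _ h => absurd h hbc⟩
  have key : ∀ v, dg (insert s(a, b) (insert s(b, c) (insert s(c, a) (∅ : Finset (Sym2 V))))) v =
      (if v = c ∨ v = a then 1 else 0) + (if v = b ∨ v = c then 1 else 0) + if v = a ∨ v = b then 1 else 0 := by
    intro v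
    rw [dg_insert n3, dg_insert n2, dg_insert n1, dg_empty, zero_add]
  have ha : dg (insert s(a, b) (insert s(b, c) (insert s(c, a) (∅ : Finset (Sym2 V))))) a = 2 := by
    rw [key]; simp [hab, hac]
  have hb : dg (insert s(a, b) (insert s(b, c) (insert s(c, a) (∅ : Finset (Sym2 V))))) b = 2 := by
    rw [key]; simp [hab.symm, hbc]
  have hc : dg (insert s(a, b) (insert s(b, c) (insert s(c, a) (∅ : Finset (Sym2 V))))) c = 2 := by
    rw [key]; simp [hac.symm, hbc.symm]
  have hx : ∀ v, v ≠ a → v ≠ b → v ≠ c →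
      dg (insert s(a, b) (insert s(b, c) (insert s(c, a) (∅ : Finset (Sym2 V))))) v = 0 := by
    intro v h1 h2 h3
    rw [key]; simp [h1, h2, h3]
  refine ⟨insert s(a, b) (insert s(b, c) (insert s(c, a) ∅)), ?_, ⟨?_, ?_⟩, ?_⟩
  · intro e he
    simp only [mem_insert, notMem_empty, or_false] at he
    rcases he with rfl | rfl | rfl
    · exact h1
    · exact h2
    · exact h3
  · intro v
    by_cases e1 : v = a
    · subst e1; exact Or.inr ha
    by_cases e2 : v = b
    · subst e2; exact Or.inr hb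
    by_cases e3 : v = c
    · subst e3; exact Or.inr hc
    exact Or.inl (hx v e1 e2 e3)
  · intro T hT x hxT hx0 y hy0
    have k1 : a ∈ T → b ∈ T := fun h => hT a h b (by simp)
    have k2 : b ∈ T → c ∈ T := fun h => hT b h c (by simp)
    have k3 : c ∈ T → a ∈ T := fun h => hT c h a (by simp)
    have hx' : x = a ∨ x = b ∨ x = c := by
      by_contra hcon
      push Not at hcon
      exact hx0 (hx x hcon.1 hcon.2.1 hcon.2.2)
    have hy' : y = a ∨ y = b ∨ y = c := by
      by_contra hcon
      push Not at hcon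
      exact hy0 (hx y hcon.1 hcon.2.1 hcon.2.2)
    have haT : a ∈ T := by
      rcases hx' with rfl | rfl | rfl
      · exact hxT
      · exact k3 (k2 hxT)
      · exact k3 hxT
    rcases hy' with rfl | rfl | rfl
    · exact haT
    · exact k1 haT
    · exact k2 (k1 haT)
  · intro v hv
    simp only [mem_insert, mem_singleton] at hv
    rcases hv with rfl | rfl | rfl
    · exact ha
    · exact hb
    · exact hc

theorem four_cyc {E : Finset (Sym2 V)} {a b c d : V} (hab : a ≠ b) (hac : a ≠ c) (had : a ≠ d) (hbc : b ≠ c)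
    (hbd : b ≠ d) (hcd : c ≠ d)
    (h1 : s(a, b) ∈ E) (h2 : s(b, c) ∈ E) (h3 : s(c, d) ∈ E) (h4 : s(d, a) ∈ E) :
    ∃ F ⊆ E, ((∀ v, dg F v = 0 ∨ dg F v = 2) ∧ ∀ T : Finset V, (∀ a ∈ T, ∀ b, s(a, b) ∈ F → b ∈ T) → ∀ x ∈ T,
      dg F x ≠ 0 → ∀ y, dg F y ≠ 0 → y ∈ T) ∧ ∀ v, (v = a ∨ v = b ∨ v = c ∨ v = d) → dg F v = 2 := by
  have n1 : s(d, a) ∉ (∅ : Finset (Sym2 V)) := notMem_empty _
  have n2 : s(c, d) ∉ insert s(d, a) (∅ : Finset (Sym2 V)) := by
    simp only [mem_insert, notMem_empty, or_false, Sym2.eq_iff, not_or, not_and]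
    exact ⟨fun h => absurd h hcd, fun h => absurd h hac.symm⟩
  have n3 : s(b, c) ∉ insert s(c, d) (insert s(d, a) (∅ : Finset (Sym2 V))) := by
    simp only [mem_insert, notMem_empty, or_false, Sym2.eq_iff, not_or, not_and]
    exact ⟨⟨fun h => absurd h hbc, fun h => absurd h hbd⟩,
      fun h => absurd h hbd, fun h => absurd h hab.symm⟩
  have n4 : s(a, b) ∉ insert s(b, c) (insert s(c, d) (insert s(d, a) (∅ : Finset (Sym2 V)))) := by
    simp only [mem_insert, notMem_empty, or_false, Sym2.eq_iff, not_or, not_and]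
    exact ⟨⟨fun h => absurd h hab, fun h => absurd h hac⟩,
      ⟨fun h => absurd h hac, fun h => absurd h had⟩, fun h => absurd h had, fun _ h => absurd h hbd⟩
  set F : Finset (Sym2 V) := insert s(a, b) (insert s(b, c) (insert s(c, d) (insert s(d, a) ∅))) with hF
  have key : ∀ v, dg F v =
      (if v = d ∨ v = a then 1 else 0) + (if v = c ∨ v = d then 1 else 0) + (if v = b ∨ v = c then 1 else 0) +
        if v = a ∨ v = b then 1 else 0 := by
    intro v
    rw [hF, dg_insert n4, dg_insert n3, dg_insert n2, dg_insert n1, dg_empty, zero_add]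
  have ha : dg F a = 2 := by
    rw [key]; simp [hab, hac, had]
  have hb : dg F b = 2 := by
    rw [key]; simp [hab.symm, hbc, hbd]
  have hc : dg F c = 2 := by
    rw [key]; simp [hac.symm, hbc.symm, hcd]
  have hd : dg F d = 2 := by
    rw [key]; simp [had.symm, hbd.symm, hcd.symm]
  have hx : ∀ v, v ≠ a → v ≠ b → v ≠ c → v ≠ d → dg F v = 0 := by
    intro v h1 h2 h3 h4
    rw [key]; simp [h1, h2, h3, h4]
  refine ⟨F, ?_, ⟨?_, ?_⟩, ?_⟩
  · intro e he
    simp only [hF, mem_insert, notMem_empty, or_false] at he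
    rcases he with rfl | rfl | rfl | rfl
    · exact h1
    · exact h2
    · exact h3
    · exact h4
  · intro v
    by_cases e1 : v = a
    · rw [e1]; exact Or.inr ha
    by_cases e2 : v = b
    · rw [e2]; exact Or.inr hb
    by_cases e3 : v = c
    · rw [e3]; exact Or.inr hc
    by_cases e4 : v = d
    · rw [e4]; exact Or.inr hd
    exact Or.inl (hx v e1 e2 e3 e4)
  · intro T hT x hxT hx0 y hy0
    have k1 : a ∈ T → b ∈ T := fun h => hT a h b (by simp [hF])
    have k2 : b ∈ T → c ∈ T := fun h => hT b h c (by simp [hF])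
    have k3 : c ∈ T → d ∈ T := fun h => hT c h d (by simp [hF])
    have k4 : d ∈ T → a ∈ T := fun h => hT d h a (by simp [hF])
    have hx' : x = a ∨ x = b ∨ x = c ∨ x = d := by
      by_contra hcon
      push Not at hcon
      exact hx0 (hx x hcon.1 hcon.2.1 hcon.2.2.1 hcon.2.2.2)
    have hy' : y = a ∨ y = b ∨ y = c ∨ y = d := by
      by_contra hcon
      push Not at hcon
      exact hy0 (hx y hcon.1 hcon.2.1 hcon.2.2.1 hcon.2.2.2)
    have haT : a ∈ T := by
      rcases hx' with h | h | h | h <;> rw [h] at hxT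
      · exact hxT
      · exact k4 (k3 (k2 hxT))
      · exact k4 (k3 hxT)
      · exact k4 hxT
    rcases hy' with h | h | h | h <;> rw [h]
    · exact haT
    · exact k1 haT
    · exact k2 (k1 haT)
    · exact k3 (k2 (k1 haT))
  · intro v hv
    rcases hv with h | h | h | h <;> rw [h]
    · exact ha
    · exact hb
    · exact hc
    · exact hd

theorem four_logic {ab ac ad bc bd cd : Prop}
    (h1 : (bc ∨ bd) ∧ (bc ∨ cd) ∧ (bd ∨ cd)) (h2 : (ac ∨ ad) ∧ (ac ∨ cd) ∧ (ad ∨ cd))
    (h3 : (ab ∨ ad) ∧ (ab ∨ bd) ∧ (ad ∨ bd)) (h4 : (ab ∨ ac) ∧ (ab ∨ bc) ∧ (ac ∨ bc)) :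
    (ab ∧ bc ∧ cd ∧ ad) ∨ (ab ∧ bd ∧ cd ∧ ac) ∨ (ac ∧ bc ∧ bd ∧ ad) := by
  by_cases e1 : ab <;> by_cases e2 : ac <;> by_cases e3 : ad <;> by_cases e4 : bc <;> by_cases e5 : bd <;>
    by_cases e6 : cd <;> simp_all

/-- (D): a 2-connected graph with at most four vertices has a Hamiltonian cycle. -/
theorem small_ham {E : Finset (Sym2 V)} {Y : Finset V} (hT : TCY E Y) (h4 : Y.card ≤ 4) :
    ∃ F ⊆ E, ((∀ v, dg F v = 0 ∨ dg F v = 2) ∧ ∀ T : Finset V, (∀ a ∈ T, ∀ b, s(a, b) ∈ F → b ∈ T) → ∀ x ∈ T,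
      dg F x ≠ 0 → ∀ y, dg F y ≠ 0 → y ∈ T) ∧ ∀ v ∈ Y, dg F v = 2 := by
  have h3 := hT.three
  have hcard : Y.card = 3 ∨ Y.card = 4 := by omega
  rcases hcard with hY | hY
  · obtain ⟨a, b, c, hab, hac, hbc, rfl⟩ := card_eq_three.1 hY
    have e1 : s(b, c) ∈ E := by
      apply pair_edge hbc
      have := hT.conn' a (by simp)
      rwa [show ({a, b, c} : Finset V).erase a = {b, c} by
        rw [erase_insert]; simp [hab, hac]] at this
    have e2 : s(a, b) ∈ E := by
      apply pair_edge hab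
      have := hT.conn' c (by simp)
      rwa [show ({a, b, c} : Finset V).erase c = {a, b} by
        ext x; simp only [mem_erase, mem_insert, mem_singleton]
        constructor
        · rintro ⟨h1, h2 | h2 | h2⟩
          · exact Or.inl h2
          · exact Or.inr h2
          · exact absurd h2 h1
        · rintro (h | h)
          · exact ⟨by rw [h]; exact hac, Or.inl h⟩
          · exact ⟨by rw [h]; exact hbc, Or.inr (Or.inl h)⟩] at this
    have e3 : s(c, a) ∈ E := by
      apply pair_edge hac.symm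
      have := hT.conn' b (by simp)
      rwa [show ({a, b, c} : Finset V).erase b = {c, a} by
        ext x; simp only [mem_erase, mem_insert, mem_singleton]
        constructor
        · rintro ⟨h1, h2 | h2 | h2⟩
          · exact Or.inr h2
          · exact absurd h2 h1
          · exact Or.inl h2
        · rintro (h | h)
          · exact ⟨by rw [h]; exact hbc.symm, Or.inr (Or.inr h)⟩
          · exact ⟨by rw [h]; exact hab, Or.inl h⟩] at this
    exact three_cyc hab hac hbc e2 e1 e3
  · obtain ⟨a, ha⟩ : Y.Nonempty := card_pos.1 (by omega)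
    obtain ⟨b, c, d, hbc, hbd, hcd, he⟩ := card_eq_three.1 (show (Y.erase a).card = 3 by
      rw [card_erase_of_mem ha, hY])
    have hb : b ∈ Y.erase a := by rw [he]; simp
    have hc : c ∈ Y.erase a := by rw [he]; simp
    have hd : d ∈ Y.erase a := by rw [he]; simp
    have hab : a ≠ b := (mem_erase.1 hb).1.symm
    have hac : a ≠ c := (mem_erase.1 hc).1.symm
    have had : a ≠ d := (mem_erase.1 hd).1.symm
    have hYe : Y = insert a {b, c, d} := by rw [← he, insert_erase ha]
    have t1 := triple_edges hbc hbd hcd (by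
      have := hT.conn' a ha
      rwa [he] at this)
    have t2 := triple_edges (E := E) hac had hcd (by
      have := hT.conn' b (mem_erase.1 hb).2
      rwa [show Y.erase b = {a, c, d} by
        rw [hYe]; ext x; simp only [mem_erase, mem_insert, mem_singleton]
        constructor
        · rintro ⟨h1, h2 | h2 | h2 | h2⟩
          · exact Or.inl h2
          · exact absurd h2 h1
          · exact Or.inr (Or.inl h2)
          · exact Or.inr (Or.inr h2)
        · rintro (h | h | h)
          · exact ⟨by rw [h]; exact hab, Or.inl h⟩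
          · exact ⟨by rw [h]; exact hbc.symm, Or.inr (Or.inr (Or.inl h))⟩
          · exact ⟨by rw [h]; exact hbd.symm, Or.inr (Or.inr (Or.inr h))⟩] at this)
    have t3 := triple_edges (E := E) hab had hbd (by
      have := hT.conn' c (mem_erase.1 hc).2
      rwa [show Y.erase c = {a, b, d} by
        rw [hYe]; ext x; simp only [mem_erase, mem_insert, mem_singleton]
        constructor
        · rintro ⟨h1, h2 | h2 | h2 | h2⟩
          · exact Or.inl h2
          · exact Or.inr (Or.inl h2)
          · exact absurd h2 h1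
          · exact Or.inr (Or.inr h2)
        · rintro (h | h | h)
          · exact ⟨by rw [h]; exact hac, Or.inl h⟩
          · exact ⟨by rw [h]; exact hbc, Or.inr (Or.inl h)⟩
          · exact ⟨by rw [h]; exact hcd.symm, Or.inr (Or.inr (Or.inr h))⟩] at this)
    have t4 := triple_edges (E := E) hab hac hbc (by
      have := hT.conn' d (mem_erase.1 hd).2
      rwa [show Y.erase d = {a, b, c} by
        rw [hYe]; ext x; simp only [mem_erase, mem_insert, mem_singleton]
        constructor
        · rintro ⟨h1, h2 | h2 | h2 | h2⟩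
          · exact Or.inl h2
          · exact Or.inr (Or.inl h2)
          · exact Or.inr (Or.inr h2)
          · exact absurd h2 h1
        · rintro (h | h | h)
          · exact ⟨by rw [h]; exact had, Or.inl h⟩
          · exact ⟨by rw [h]; exact hbd, Or.inr (Or.inl h)⟩
          · exact ⟨by rw [h]; exact hcd, Or.inr (Or.inr (Or.inl h))⟩] at this)
    have hYm : ∀ v ∈ Y, v = a ∨ v = b ∨ v = c ∨ v = d := by
      intro v hv
      rw [hYe] at hv
      simpa using hv
    rcases four_logic t1 t2 t3 t4 with ⟨k1, k2, k3, k4⟩ | ⟨k1, k2, k3, k4⟩ | ⟨k1, k2, k3, k4⟩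
    · obtain ⟨F, hF, h1, h2⟩ := four_cyc hab hac had hbc hbd hcd k1 k2 k3 (by rwa [Sym2.eq_swap])
      exact ⟨F, hF, h1, fun v hv => h2 v (hYm v hv)⟩
    · -- a b d c
      obtain ⟨F, hF, h1, h2⟩ := four_cyc hab had hac hbd hbc hcd.symm k1 k2 (by rwa [Sym2.eq_swap])
        (by rwa [Sym2.eq_swap])
      exact ⟨F, hF, h1, fun v hv => h2 v (by rcases hYm v hv with h | h | h | h <;> simp [h])⟩
    · -- a c b d
      obtain ⟨F, hF, h1, h2⟩ := four_cyc hac hab had hbc.symm hcd hbd k1 (by rwa [Sym2.eq_swap]) k3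
        (by rwa [Sym2.eq_swap])
      exact ⟨F, hF, h1, fun v hv => h2 v (by rcases hYm v hv with h | h | h | h <;> simp [h])⟩

end H33DC
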