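import Pool.Agent.Lib.H33DC.D
import Pool.Agent.Lib.H47G5.Cv

/-!
# H33DC, file D2: (D) in the words of H47G5
-/

set_option autoImplicit false

namespace H33DC

open Finset H98M H85TF LD

theorem oneCyc_small {V : Type*} [Fintype V] [DecidableEq V] {E : Finset (Sym2 V)} {Y : Finset V} (hT : TCY E Y)
    (h4 : Y.card ≤ 4) : H47G5.OneCyc E Y := small_ham hT h4

end H33DC
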